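import Pool.Agent.Lib.MP_688fd0_co.SQ2.TW

/-!
FRONT (helper35): choice of the sheets of a frontier.

`D` is a normal subgroup, `A` is central modulo `D`, `W` is a finite set of wanted vertices whose differences are never in
`D A^j` for `c < |j| ≤ Λ`. Then there is a finite union `F` of cosets of `D` which contains a given vertex `w₀ ∈ W`, a
translate `w A^j`, `|j| ≤ c`, of every `w ∈ W`, and whose translates `F A^j`, `|j| ≤ Λ`, are disjoint.
-/

set_option autoImplicit false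

namespace Pool.Agent.Lib.MP_688fd0_co.SQ2

universe u

/-- A frontier: a union of cosets of `D` whose translates by `A^j`, `|j| ≤ Λ`, are disjoint; it contains `w₀`, it meets
`w A^j` for some `|j| ≤ c`, for every `w ∈ W`, and every element of it is in `w D` for some `w ∈ W`. -/
structure FrontP {Q : Type u} [Group Q] (D : Subgroup Q) (A : Q) (W : Finset Q) (w₀ : Q) (c Λ : ℕ) (F : Finset Q) :
    Prop where
  right : ∀ x ∈ F, ∀ y ∈ D, x * y ∈ F
  left : ∀ x ∈ F, ∀ y ∈ D, y * x ∈ F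
  lt_eq : ∀ t : ℤ, ∀ y ∈ D, lt (y * A ^ t) F = rt F (A ^ t)
  lt_eq' : ∀ t : ℤ, ∀ y ∈ D, lt (A ^ t * y) F = rt F (A ^ t)
  disj : ∀ x ∈ F, ∀ y ∈ F, ∀ j : ℤ, j.natAbs ≤ Λ → y = x * A ^ j → j = 0
  base : w₀ ∈ F
  cov : ∀ w ∈ W, ∃ j : ℤ, j.natAbs ≤ c ∧ w * A ^ j ∈ F
  sub : ∀ x ∈ F, ∃ w ∈ W, w⁻¹ * x ∈ D

/-- FRONT. -/
theorem front {Q : Type u} [Group Q] [Finite Q] (D : Subgroup Q) [D.Normal] (A : Q)
    (hA : ∀ q : Q, A * q * A⁻¹ * q⁻¹ ∈ D) (W : Finset Q) (w₀ : Q) (hw₀ : w₀ ∈ W) (c Λ : ℕ) (hc : 2 * c ≤ Λ)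
    (hW : ∀ w ∈ W, ∀ w' ∈ W, ∀ j : ℤ, c < j.natAbs → j.natAbs ≤ Λ → ¬ (w⁻¹ * w' * A ^ (-j) ∈ D)) :
    ∃ F : Finset Q, FrontP D A W w₀ c Λ F := by
  classical
  -- the quotient
  let π : Q →* Q ⧸ D := QuotientGroup.mk' D
  have hπ : ∀ x y : Q, π x = π y ↔ x⁻¹ * y ∈ D := fun x y => QuotientGroup.eq
  have hD : ∀ y : Q, y ∈ D ↔ π y = 1 := fun y => (QuotientGroup.eq_one_iff y).symm
  let a : Q ⧸ D := π A
  have hcen : ∀ z : Q ⧸ D, Commute a z := by
    intro z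
    obtain ⟨q, rfl⟩ := QuotientGroup.mk'_surjective D z
    have h := (hD _).1 (hA q)
    rw [map_mul, map_mul, map_mul, map_inv, map_inv] at h
    have h2 : π A * π q * (π A)⁻¹ = π q := mul_inv_eq_one.1 h
    have h3 : π A * π q = π q * π A := by
      rw [← h2]; rw [inv_mul_cancel_right]; rw [h2]
    exact h3
  have hW' : ∀ w ∈ W, ∀ w' ∈ W, ∀ j : ℤ, c < j.natAbs → j.natAbs ≤ Λ → π w' ≠ π w * a ^ j := by
    intro w hw w' hw' j h1 h2 h
    refine hW w hw w' hw' j h1 h2 ((hD _).2 ?_)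
    rw [map_mul, map_mul, map_inv, map_zpow, h]
    show (π w)⁻¹ * (π w * a ^ j) * a ^ (-j) = 1
    rw [inv_mul_cancel_left, zpow_neg, mul_inv_cancel]
  -- no small powers of `a` are trivial
  have hord : ∀ j : ℤ, j.natAbs ≤ Λ → a ^ j = 1 → j = 0 := by
    intro j hj h
    by_contra hne
    rcases Nat.lt_or_ge c j.natAbs with h1 | h1
    · exact hW' w₀ hw₀ w₀ hw₀ j h1 hj (by rw [h, mul_one])
    · have hpos : 0 < j.natAbs := Int.natAbs_pos.2 hne
      have h2 : c / j.natAbs * j.natAbs ≤ c := Nat.div_mul_le_self _ _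
      have h3 : c < (c / j.natAbs + 1) * j.natAbs := Nat.lt_mul_of_div_lt (Nat.lt_succ_self _) hpos
      have h4 : (((c / j.natAbs + 1 : ℕ) : ℤ) * j).natAbs = (c / j.natAbs + 1) * j.natAbs := by
        rw [Int.natAbs_mul, Int.natAbs_natCast]
      refine hW' w₀ hw₀ w₀ hw₀ (((c / j.natAbs + 1 : ℕ) : ℤ) * j) (by rw [h4]; exact h3) ?_ ?_
      · rw [h4]
        have : (c / j.natAbs + 1) * j.natAbs = c / j.natAbs * j.natAbs + j.natAbs := by ring
        omega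
      · rw [mul_comm, zpow_mul, h, one_zpow, mul_one]
  -- the representatives
  let r : Q → Q → Prop := fun x y => ∃ j : ℤ, j.natAbs ≤ c ∧ π y = π x * a ^ j
  let S : Finset (Finset Q) := W.powerset.filter (fun R => w₀ ∈ R ∧ ∀ x ∈ R, ∀ y ∈ R, r x y → x = y)
  have hS : ({w₀} : Finset Q) ∈ S := by
    refine Finset.mem_filter.2 ⟨Finset.mem_powerset.2 (Finset.singleton_subset_iff.2 hw₀),
      Finset.mem_singleton_self _, ?_⟩
    intro x hx y hy _
    rw [Finset.mem_singleton.1 hx, Finset.mem_singleton.1 hy]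
  obtain ⟨R, hRS, hmax⟩ := Finset.exists_max_image S Finset.card ⟨_, hS⟩
  obtain ⟨hRW, hR0, hRr⟩ := Finset.mem_filter.1 hRS
  rw [Finset.mem_powerset] at hRW
  have hcovR : ∀ w ∈ W, ∃ x ∈ R, ∃ j : ℤ, j.natAbs ≤ c ∧ π (w * A ^ j) = π x := by
    intro w hw
    have hsymm : ∀ x, r w x → ∃ j : ℤ, j.natAbs ≤ c ∧ π (w * A ^ j) = π x := by
      rintro x ⟨j, hj, h⟩
      exact ⟨j, hj, by rw [map_mul, map_zpow, h]⟩
    have hsymm' : ∀ x, r x w → ∃ j : ℤ, j.natAbs ≤ c ∧ π (w * A ^ j) = π x := by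
      rintro x ⟨j, hj, h⟩
      refine ⟨-j, by rw [Int.natAbs_neg]; exact hj, ?_⟩
      rw [map_mul, map_zpow, h]
      show π x * a ^ j * a ^ (-j) = π x
      rw [zpow_neg, mul_inv_cancel_right]
    by_cases hwR : w ∈ R
    · exact ⟨w, hwR, 0, Nat.zero_le _, by rw [zpow_zero, mul_one]⟩
    · by_contra hno
      push Not at hno
      have hin : insert w R ∈ S := by
        refine Finset.mem_filter.2 ⟨Finset.mem_powerset.2 (Finset.insert_subset hw hRW),
          Finset.mem_insert_of_mem hR0, ?_⟩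
        intro x hx y hy hxy
        rcases Finset.mem_insert.1 hx with hx1 | hx1
        · rcases Finset.mem_insert.1 hy with hy1 | hy1
          · rw [hx1, hy1]
          · obtain ⟨j, hj, h⟩ := hsymm y (hx1 ▸ hxy)
            exact absurd h (hno y hy1 j hj)
        · rcases Finset.mem_insert.1 hy with hy1 | hy1
          · obtain ⟨j, hj, h⟩ := hsymm' x (hy1 ▸ hxy)
            exact absurd h (hno x hx1 j hj)
          · exact hRr x hx1 y hy1 hxy
      have := hmax _ hin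
      rw [Finset.card_insert_of_notMem hwR] at this
      omega
  -- the frontier
  let F : Finset Q := (Set.toFinite {y : Q | ∃ x ∈ R, π y = π x}).toFinset
  have hF : ∀ y, y ∈ F ↔ ∃ x ∈ R, π y = π x := by
    intro y
    exact Set.Finite.mem_toFinset _
  have hDl : ∀ x ∈ F, ∀ y ∈ D, y * x ∈ F := by
    intro x hx y hy
    obtain ⟨z, hz, h⟩ := (hF x).1 hx
    exact (hF _).2 ⟨z, hz, by rw [map_mul, (hD y).1 hy, one_mul, h]⟩
  have hDr : ∀ x ∈ F, ∀ y ∈ D, x * y ∈ F := by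
    intro x hx y hy
    obtain ⟨z, hz, h⟩ := (hF x).1 hx
    exact (hF _).2 ⟨z, hz, by rw [map_mul, (hD y).1 hy, mul_one, h]⟩
  have hlt : ∀ t : ℤ, ∀ u : Q, π u = a ^ t → lt u F = rt F (A ^ t) := by
    intro t u hu
    ext x
    rw [mem_lt, mem_rt, hF, hF]
    have h1 : π (u⁻¹ * x) = π (x * (A ^ t)⁻¹) := by
      rw [map_mul, map_inv, hu, map_mul, map_inv, map_zpow]
      exact (((hcen (π x)).zpow_left t).inv_left).eq
    rw [h1]
  refine ⟨F, hDr, hDl, ?_, ?_, ?_, (hF _).2 ⟨w₀, hR0, rfl⟩, ?_, ?_⟩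
  · intro t y hy
    exact hlt t _ (by rw [map_mul, (hD y).1 hy, one_mul, map_zpow])
  · intro t y hy
    exact hlt t _ (by rw [map_mul, (hD y).1 hy, mul_one, map_zpow])
  · intro x hx y hy j hj hxy
    obtain ⟨x', hx', h1⟩ := (hF x).1 hx
    obtain ⟨y', hy', h2⟩ := (hF y).1 hy
    have h3 : π y' = π x' * a ^ j := by
      rw [← h2, ← h1, hxy, map_mul, map_zpow]
    rcases Nat.lt_or_ge c j.natAbs with h4 | h4
    · exact absurd h3 (hW' x' (hRW hx') y' (hRW hy') j h4 hj)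
    · have h5 : x' = y' := hRr x' hx' y' hy' ⟨j, h4, h3⟩
      subst h5
      exact hord j hj (mul_eq_left.1 h3.symm)
  · intro w hw
    obtain ⟨x, hx, j, hj, h⟩ := hcovR w hw
    exact ⟨j, hj, (hF _).2 ⟨x, hx, h⟩⟩
  · intro x hx
    obtain ⟨z, hz, h⟩ := (hF x).1 hx
    exact ⟨z, hRW hz, (hπ z x).1 h.symm⟩

end Pool.Agent.Lib.MP_688fd0_co.SQ2
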