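import Pool.Agent.Lib.MP_688fd0_co.SQ2.Iface
import Pool.Agent.Lib.MP_688fd0_co.SQ2.H35.Front
import Pool.Agent.Lib.MP_688fd0_co.SQ2.H80.TreeP

/-!
FRONT and CTX (helper35): the frontiers, and the tree of the lines of `a`, cut into paths of length two.
-/

set_option autoImplicit false

namespace Pool.Agent.Lib.MP_688fd0_co.SQ2

open Pool.Agent.Lib.MP_688fd0_co.OSF

namespace H35

/-- `A` is central modulo `D`. -/
theorem comm_mem {Q : Type} [Group Q] {D : Subgroup Q} [hD : D.Normal] {z A : Q} (hz : ∀ x : Q, z * x = x * z)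
    (hA : z⁻¹ * A ∈ D) (q : Q) : A * q * A⁻¹ * q⁻¹ ∈ D := by
  obtain ⟨δ, hδ, rfl⟩ : ∃ δ ∈ D, A = z * δ := ⟨z⁻¹ * A, hA, by rw [mul_inv_cancel_left]⟩
  have h1 : z * δ * q * (z * δ)⁻¹ * q⁻¹ = δ * (q * δ⁻¹ * q⁻¹) := by
    have h2 : z * δ * q * (z * δ)⁻¹ * q⁻¹ = z * (δ * q * δ⁻¹) * z⁻¹ * q⁻¹ := by group
    rw [h2, hz, mul_inv_cancel_right]; group
  rw [h1]
  exact D.mul_mem hδ (hD.conj_mem _ (D.inv_mem hδ) q)

/-- `A ^ k` is central. -/
theorem pow_central {Q : Type} [Group Q] {D : Subgroup Q} {z A : Q} {k : ℕ} (hz : ∀ x : Q, z * x = x * z)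
    (hA : z⁻¹ * A ∈ D) (hk : Nat.card D ∣ k) (q : Q) : A ^ k * q = q * A ^ k := by
  obtain ⟨δ, hδ, rfl⟩ : ∃ δ ∈ D, A = z * δ := ⟨z⁻¹ * A, hA, by rw [mul_inv_cancel_left]⟩
  have h1 : δ ^ k = 1 := by
    have h2 : (⟨δ, hδ⟩ : D) ^ Nat.card D = 1 := pow_card_eq_one'
    obtain ⟨m, rfl⟩ := hk
    have h3 : δ ^ Nat.card D = 1 := congrArg Subtype.val h2
    rw [pow_mul, h3, one_pow]
  have h2 : Commute z δ := hz δ
  rw [h2.mul_pow, h1, mul_one]
  have h3 : Commute z q := hz q
  exact (h3.pow_left k).eq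

/-- The size of a union of cosets. -/
theorem card_cosets {Q : Type} [Group Q] [Finite Q] (D : Subgroup Q) (F M : Finset Q)
    (h : ∀ s ∈ F, ∃ w ∈ M, w⁻¹ * s ∈ D) : F.card ≤ M.card * Nat.card D := by
  classical
  have hfin : (D : Set Q).Finite := Set.toFinite _
  have hsub : F ⊆ (M ×ˢ hfin.toFinset).image (fun p => p.1 * p.2) := by
    intro s hs
    obtain ⟨w, hw, hd⟩ := h s hs
    exact Finset.mem_image.2 ⟨(w, w⁻¹ * s), Finset.mem_product.2 ⟨hw, hfin.mem_toFinset.2 hd⟩, by simp⟩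
  refine (Finset.card_le_card hsub).trans (Finset.card_image_le.trans ?_)
  rw [Finset.card_product, ← Set.ncard_eq_toFinset_card _ hfin]
  exact le_of_eq rfl

end H35

/-- FRONT in the form of the interface. -/
theorem frontS : FrontS := by
  intro Q _ B a D z k H M c W w₀ hcW hw₀ hM hL
  have hfin : Finite Q := H.fin
  have hn : D.Normal := H.nrm
  classical
  obtain ⟨F, hF⟩ := front D (B.q a) (H35.comm_mem H.cen H.mem) M w₀ hw₀ c W hcW (by
    intro w hw w' hw' j h1 h2 h3
    refine hM w hw w' hw' j (by rw [Int.abs_eq_natAbs]; omega) (by rw [Int.abs_eq_natAbs]; omega) ?_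
    -- conjugate by `A ^ j`
    have h4 := hn.conj_mem _ h3 ((B.q a ^ j)⁻¹)
    rw [inv_inv, zpow_neg] at h4
    have h5 : (B.q a ^ j)⁻¹ * (w⁻¹ * w' * (B.q a ^ j)⁻¹) * B.q a ^ j = (B.q a ^ j)⁻¹ * (w⁻¹ * w') := by group
    rw [h5] at h4
    exact h4)
  refine ⟨F, ?_, ⟨hF.right, ?_⟩, hF.base, ?_, hF.sub⟩
  · refine (H35.card_cosets D F M hF.sub).trans (Nat.mul_le_mul_left _ (Nat.le_of_dvd ?_ H.card))
    exact H.kodd.pos
  · intro s hs t ht h
    exact hF.disj s hs _ h t (by rw [Int.abs_eq_natAbs] at ht; omega) rfl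
  · intro w hw
    obtain ⟨j, hj, h⟩ := hF.cov w hw
    exact ⟨-j, by rw [abs_neg, Int.abs_eq_natAbs]; omega, by rw [zpow_neg, inv_inv]; exact h⟩

namespace H35

section words

variable {Q : Type} [Group Q] {B : Lb.{0, 0} Q}

theorem fin_mul (x : Q) (l : List B.L) : B.fin x l = x * B.fin 1 l := by
  have := fin_tr (B := B) x 1 l
  rwa [mul_one] at this

theorem fin_inv (l : List B.L) : (B.fin 1 l)⁻¹ = B.fin 1 (B.rev l) := by
  have h := fin_rev (B := B) 1 l
  rw [fin_mul] at h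
  exact (mul_eq_one_iff_inv_eq.1 h)

theorem length_rev (l : List B.L) : (B.rev l).length = l.length := by
  unfold Lb.rev
  rw [List.length_reverse, List.length_map]

/-- Words of length at most `n`. -/
theorem exists_words [Finite B.L] (n : ℕ) : ∃ S : Finset (List B.L), (∀ l : List B.L, l ∈ S ↔ l.length ≤ n) ∧
    S.card ≤ (Nat.card B.L + 2) ^ n := by
  classical
  cases nonempty_fintype B.L
  induction n with
  | zero =>
    refine ⟨{[]}, fun l => ?_, by simp⟩
    rw [Finset.mem_singleton, Nat.le_zero, List.length_eq_zero_iff]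
  | succ n ih =>
    obtain ⟨S, hS, hc⟩ := ih
    refine ⟨insert [] ((Finset.univ ×ˢ S).image (fun p => p.1 :: p.2)), fun l => ?_, ?_⟩
    · rw [Finset.mem_insert, Finset.mem_image]
      constructor
      · rintro (rfl | ⟨⟨g, l'⟩, h, rfl⟩)
        · simp
        · have := (hS l').1 (Finset.mem_product.1 h).2
          simpa using this
      · intro h
        cases l with
        | nil => exact Or.inl rfl
        | cons g l' =>
          refine Or.inr ⟨(g, l'), Finset.mem_product.2 ⟨Finset.mem_univ _, (hS l').2 ?_⟩, rfl⟩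
          simpa using h
    · refine (Finset.card_insert_le _ _).trans ?_
      have h1 : ((Finset.univ ×ˢ S).image (fun p : B.L × List B.L => p.1 :: p.2)).card ≤ Nat.card B.L * S.card := by
        refine Finset.card_image_le.trans ?_
        rw [Finset.card_product, Finset.card_univ, Nat.card_eq_fintype_card]
      have h2 : 1 ≤ (Nat.card B.L + 2) ^ n := Nat.one_le_pow _ _ (by omega)
      calc _ ≤ Nat.card B.L * S.card + 1 := Nat.add_le_add_right h1 1
        _ ≤ Nat.card B.L * (Nat.card B.L + 2) ^ n + (Nat.card B.L + 2) ^ n :=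
          Nat.add_le_add (Nat.mul_le_mul_left _ hc) h2
        _ ≤ (Nat.card B.L + 2) ^ (n + 1) := by rw [pow_succ]; nlinarith

end words

/-- One frontier. -/
theorem one_front {Q : Type} [Group Q] (B : Lb.{0, 0} Q) (a : B.L) (D : Subgroup Q) (z : Q) (k : ℕ)
    (H : Hyp B a D z k) (c W : ℕ) (hsep : Sep B a D c W) (hlev : Lev B a D W) (hW : 2 * c ≤ W) (x : Q) :
    ∃ F : Finset Q, Fr B a D W F ∧ x ∈ F ∧
      (∀ l : List B.L, l.length ≤ 4 → ∃ o : ℤ, |o| ≤ c ∧ B.fin x l * (B.q a ^ o)⁻¹ ∈ F) ∧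
      (∀ s ∈ F, ∃ l : List B.L, l.length ≤ 4 ∧ ∃ o : ℤ, (B.fin x l * B.q a ^ o)⁻¹ * s ∈ D) ∧
      F.card ≤ (Nat.card B.L + 2) ^ 4 * k := by
  classical
  have hfL : Finite B.L := H.finL
  obtain ⟨S, hS, hc⟩ := exists_words (B := B) 4
  obtain ⟨F, h1, h2, h3, h4, h5⟩ := frontS Q B a D z k H (S.image (fun l => B.fin x l)) c W x hW
    (Finset.mem_image.2 ⟨[], (hS _).2 (by simp), rfl⟩) (by
      intro w hw w' hw' j hj1 hj2
      obtain ⟨l, hl, rfl⟩ := Finset.mem_image.1 hw
      obtain ⟨l', hl', rfl⟩ := Finset.mem_image.1 hw'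
      have h := hsep (B.rev l ++ l') j (by
        have := (hS _).1 hl
        have := (hS _).1 hl'
        rw [List.length_append, length_rev]; omega) hj1 hj2
      have e : (B.fin x l)⁻¹ * B.fin x l' = B.fin 1 (B.rev l ++ l') := by
        rw [fin_append, fin_mul (B.fin 1 (B.rev l)), fin_mul x l, fin_mul x l', ← fin_inv]
        group
      rw [e]
      exact h) hlev
  refine ⟨F, h2, h3, ?_, ?_, ?_⟩
  · intro l hl
    exact h4 _ (Finset.mem_image.2 ⟨l, (hS _).2 hl, rfl⟩)
  · intro s hs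
    obtain ⟨w, hw, hd⟩ := h5 s hs
    obtain ⟨l, hl, rfl⟩ := Finset.mem_image.1 hw
    exact ⟨l, (hS _).1 hl, 0, by rw [zpow_zero, mul_one]; exact hd⟩
  · exact h1.trans (Nat.mul_le_mul_right _ (Finset.card_image_le.trans hc))

end H35

/-- CTX, spelled out. -/
theorem ctx' (Q : Type) [Group Q] (B : Lb.{0, 0} Q) (a : B.L) (D : Subgroup Q) (z : Q) (k : ℕ) (H : Hyp B a D z k)
    (c W : ℕ) (hsink : Sink B a D W) (hsep : Sep B a D c W) (hlev : Lev B a D W) (hW : 4 * (c + k) ≤ W)
    (htop : Subgroup.zpowers (B.q a) ≠ ⊤) :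
      ∃ (d : Q → Bool) (N : ℕ) (x : Fin N → Q) (b₁ b₂ : Fin N → B.L) (j : Fin N → ℕ) (F : Fin N → Finset Q)
        (rk : Fin N → ℕ), Ctx B a D k c W d x b₁ b₂ j F ∧ 0 < N ∧
        TreeL (fun y : Q => (y : Q ⧸ Subgroup.zpowers (B.q a))) x (fun i => x i * B.q (b₁ i))
          (fun i => x i * B.q a ^ j i * B.q (b₂ i)) rk := by
  classical
  have hfin : Finite Q := H.fin
  have hn : D.Normal := H.nrm
  have hk : 0 < k := H.kodd.pos
  let A := B.q a
  let Λ := Q ⧸ Subgroup.zpowers A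
  let ln : Q → Λ := fun y => (y : Q ⧸ Subgroup.zpowers A)
  have hln : ∀ x y : Q, ln x = ln y ↔ ∃ t : ℤ, y = x * A ^ t := by
    intro x y
    show ((x : Q ⧸ Subgroup.zpowers A)) = (y : Q ⧸ Subgroup.zpowers A) ↔ _
    rw [QuotientGroup.eq, Subgroup.mem_zpowers_iff]
    constructor
    · rintro ⟨t, ht⟩
      exact ⟨t, by rw [ht, mul_inv_cancel_left]⟩
    · rintro ⟨t, ht⟩
      exact ⟨t, by rw [ht, inv_mul_cancel_left]⟩
  cases nonempty_fintype Λ
  let E : Λ → Λ → Prop := fun p q => p ≠ q ∧ ∃ (y : Q) (b : B.L), ln y = p ∧ ln (y * B.q b) = q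
  have hEs : ∀ p q, E p q → E q p := by
    rintro p q ⟨hne, y, b, rfl, rfl⟩
    exact ⟨hne.symm, y * B.q b, B.inv b, rfl, by rw [B.q_inv, mul_inv_cancel_right]⟩
  have hEc : ∀ ρ : Λ → Λ → Prop, Equivalence ρ → (∀ x y, E x y → ρ x y) → ∀ x y, ρ x y := by
    intro ρ hρ hE
    have hstep : ∀ (y : Q) (b : B.L), ρ (ln y) (ln (y * B.q b)) := by
      intro y b
      by_cases h : ln y = ln (y * B.q b)
      · rw [← h]; exact hρ.refl _
      · exact hE _ _ ⟨h, y, b, rfl, rfl⟩
    have hall : ∀ g : Q, ∀ y : Q, ρ (ln y) (ln (y * g)) := by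
      intro g
      have hg : g ∈ Subgroup.closure (Set.range B.q) := by rw [H.gen]; trivial
      induction hg using Subgroup.closure_induction with
      | mem g hg =>
        obtain ⟨b, rfl⟩ := hg
        intro y; exact hstep y b
      | one => intro y; rw [mul_one]; exact hρ.refl _
      | mul g g' _ _ h h' => intro y; rw [← mul_assoc]; exact hρ.trans (h y) (h' _)
      | inv g _ h =>
        intro y
        have := h (y * g⁻¹)
        rw [inv_mul_cancel_right] at this
        exact hρ.symm this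
    intro p q
    obtain ⟨y, rfl⟩ := QuotientGroup.mk_surjective p
    obtain ⟨y', rfl⟩ := QuotientGroup.mk_surjective q
    have := hall (y⁻¹ * y') y
    rw [mul_inv_cancel_left] at this
    exact this
  have hodd : Odd (Fintype.card Λ) := by
    have h1 : Nat.card Q = Nat.card Λ * Nat.card (Subgroup.zpowers A) := Subgroup.card_eq_card_quotient_mul_card_subgroup _
    rw [← Nat.card_eq_fintype_card]
    have h2 := H.odd
    rw [h1] at h2
    exact (Nat.odd_mul.1 h2).1
  obtain ⟨dd, N, cc, ll, mm, rk, hT, hE, hd⟩ := tree Λ E hEs (fun p hp => hp.1 rfl) hEc hodd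
  -- choice of `x`, `b₁`, `j`, `b₂`
  have hch : ∀ i : Fin N, ∃ (x : Q) (b₁ b₂ : B.L) (j : ℕ), j < k ∧ ln x = cc i ∧ ln (x * B.q b₁) = ll i ∧
      ln (x * A ^ j * B.q b₂) = mm i := by
    intro i
    obtain ⟨⟨_, y, b₁, h1, h2⟩, ⟨_, y', b₂, h3, h4⟩⟩ := hE i
    obtain ⟨t, ht⟩ := (hln y y').1 (h1.trans h3.symm)
    refine ⟨y, b₁, b₂, (t % (k : ℤ)).toNat, ?_, h1, h2, ?_⟩
    · have h5 := Int.emod_lt_of_pos t (show (0 : ℤ) < k by exact_mod_cast hk)
      have h6 := Int.emod_nonneg t (show (k : ℤ) ≠ 0 by exact_mod_cast hk.ne')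
      omega
    · rw [← h4, ht]
      have h6 := Int.emod_nonneg t (show (k : ℤ) ≠ 0 by exact_mod_cast hk.ne')
      refine ((hln _ _).2 ⟨(k : ℤ) * (t / k), ?_⟩)
      have hcen : ∀ g : Q, Commute (A ^ ((k : ℤ) * (t / k))) g := by
        intro g
        rw [zpow_mul, zpow_natCast]
        exact Commute.zpow_left (H35.pow_central H.cen H.mem H.card g) _
      have e1 : A ^ t = A ^ (t % (k : ℤ)).toNat * A ^ ((k : ℤ) * (t / k)) := by
        rw [← zpow_natCast, Int.toNat_of_nonneg h6, ← zpow_add, Int.emod_add_mul_ediv]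
      rw [e1, mul_assoc y, mul_assoc (A ^ (t % (k : ℤ)).toNat), (hcen (B.q b₂)).eq]
      simp only [mul_assoc]
  choose x b₁ b₂ j hj hx hl hm using hch
  have hWc : 2 * c ≤ W := by omega
  have hfr := fun i => H35.one_front B a D z k H c W hsep hlev hWc (x i)
  choose F hF1 hF2 hF3 hF4 hF5 using hfr
  have hdc : ∀ i, dd (ll i) = !dd (cc i) ∧ dd (mm i) = !dd (cc i) := hd
  -- `N > 0`
  have hN : 0 < N := by
    rcases Nat.eq_zero_or_pos N with h0 | h0
    · exfalso
      subst h0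
      refine htop ?_
      rw [eq_top_iff]
      intro g _
      have := hT.cov (fun p q => p = q) ⟨fun _ => rfl, fun h => h.symm, fun h h' => h.trans h'⟩
        (fun i => i.elim0) (ln 1) (ln g)
      obtain ⟨t, ht⟩ := (hln _ _).1 this
      rw [one_mul] at ht
      rw [ht]
      exact Subgroup.zpow_mem _ (Subgroup.mem_zpowers _) t
    · exact h0
  -- all lines occur
  have hcov : ∀ q : Λ, ∃ i, q = cc i ∨ q = ll i ∨ q = mm i := by
    intro q
    let U : Λ → Prop := fun q => ∃ i, q = cc i ∨ q = ll i ∨ q = mm i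
    have h := hT.cov (fun p q => p = q ∨ (U p ∧ U q))
      ⟨fun _ => Or.inl rfl, fun h => h.elim (fun h => Or.inl h.symm) (fun h => Or.inr ⟨h.2, h.1⟩), by
        intro p q r h h'
        rcases h with rfl | h
        · exact h'
        · rcases h' with rfl | h'
          · exact Or.inr h
          · exact Or.inr ⟨h.1, h'.2⟩⟩
      (fun i => ⟨Or.inr ⟨⟨i, Or.inl rfl⟩, ⟨i, Or.inr (Or.inl rfl)⟩⟩,
        Or.inr ⟨⟨i, Or.inl rfl⟩, ⟨i, Or.inr (Or.inr rfl)⟩⟩⟩) q (cc ⟨0, hN⟩)
    rcases h with h | h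
    · exact ⟨⟨0, hN⟩, Or.inl h⟩
    · exact h.1
  refine ⟨fun y => dd (ln y), N, x, b₁, b₂, j, F, rk, ?_, hN, ?_⟩
  · exact
      { sink := hsink
        sep := hsep
        lev := hlev
        d_line := fun y => by
          show dd (ln (y * A)) = dd (ln y)
          rw [← (hln y (y * A)).2 ⟨1, by rw [zpow_one]⟩]
        d₁ := fun i => by
          show dd (ln (x i * B.q (b₁ i))) = !dd (ln (x i))
          rw [hl, hx]; exact (hdc i).1
        d₂ := fun i => by
          show dd (ln (x i * A ^ j i * B.q (b₂ i))) = !dd (ln (x i))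
          rw [hm, hx]; exact (hdc i).2
        j_lt := hj
        ne := fun i t h => by
          refine hT.lm i ?_
          rw [← hl, ← hm]
          exact (hln _ _).2 ⟨t, h.symm⟩
        cov := fun y => by
          obtain ⟨i, h⟩ := hcov (ln y)
          rcases h with h | h | h
          · rw [← hx] at h
            obtain ⟨t, ht⟩ := (hln _ _).1 h.symm
            exact ⟨i, t, Or.inl ht⟩
          · rw [← hl] at h
            obtain ⟨t, ht⟩ := (hln _ _).1 h.symm
            exact ⟨i, t, Or.inr (Or.inl ht)⟩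
          · rw [← hm] at h
            obtain ⟨t, ht⟩ := (hln _ _).1 h.symm
            exact ⟨i, t, Or.inr (Or.inr ht)⟩
        fr := hF1
        fx := hF2
        fsh := hF3
        fsub := hF4
        fcard := hF5 }
  · exact
      { cl := fun i => by
          show ln (x i) ≠ ln (x i * B.q (b₁ i))
          rw [hx, hl]; exact hT.cl i
        cm := fun i => by
          show ln (x i) ≠ ln (x i * A ^ j i * B.q (b₂ i))
          rw [hx, hm]; exact hT.cm i
        lm := fun i => by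
          show ln (x i * B.q (b₁ i)) ≠ ln (x i * A ^ j i * B.q (b₂ i))
          rw [hl, hm]; exact hT.lm i
        two := fun i => by
          obtain ⟨p, h1, h2⟩ := hT.two i
          refine ⟨fun y => p (ln y), ?_, ?_⟩
          · show (p (ln (x i)) ∧ p (ln (x i * B.q (b₁ i)))) ∨ (p (ln (x i)) ∧ p (ln (x i * A ^ j i * B.q (b₂ i)))) ∨
              (p (ln (x i * B.q (b₁ i))) ∧ p (ln (x i * A ^ j i * B.q (b₂ i))))
            rw [hx, hl, hm]; exact h1
          · intro y hy i' hi' h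
            refine h2 (ln y) hy i' hi' ?_
            rw [← hx, ← hl, ← hm]
            exact h
        cov := fun ρ hρ h p q => by
          refine hT.cov ρ hρ (fun i => ?_) p q
          have := h i
          rw [← hx, ← hl, ← hm]
          exact this }

/-- CTX. -/
theorem ctx : CtxS := fun Q _ B a D z k H htop c W hsink hsep hlev hW =>
  ctx' Q B a D z k H c W hsink hsep hlev hW htop

end Pool.Agent.Lib.MP_688fd0_co.SQ2
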